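import Pool.Agent.TH948.BD.Defs
import Pool.Agent.TH965.Final

set_option autoImplicit false
set_option linter.unusedSectionVars false

/-!
# Rank inequality for subgraphs of a bounded degree graph (job BD-4)
-/

namespace Pool.Agent.TH948.BD

open Finset
open scoped Classical
open Pool.Agent.TH965.Spread Pool.Agent.TH948.KK

/-- the members of `T` inside `S` -/
noncomputable def insd {n : ℕ} (T : Finset (Sym2 (Fin n))) (S : Finset (Fin n)) :
    Finset (Sym2 (Fin n)) := T.filter (fun e => ∀ x ∈ e, x ∈ S)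

/-- twice the number of edges inside `S` is a sum of degrees -/
lemma two_mul_insd {n : ℕ} (T : Finset (Sym2 (Fin n))) (hT : ∀ e ∈ T, ¬ e.IsDiag)
    (S : Finset (Fin n)) :
    2 * (insd T S).card = ∑ x ∈ S, (S.filter (fun y => s(x, y) ∈ T)).card := by
  obtain ⟨G, hG⟩ : ∃ G : SimpleGraph (Fin n),
      G = SimpleGraph.fromEdgeSet ((insd T S : Finset _) : Set _) := ⟨_, rfl⟩
  have hE : G.edgeFinset = insd T S := by
    ext e
    rw [SimpleGraph.mem_edgeFinset, hG, SimpleGraph.edgeSet_fromEdgeSet]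
    constructor
    · intro h
      exact Finset.mem_coe.1 h.1
    · intro h
      refine ⟨Finset.mem_coe.2 h, ?_⟩
      have h1 : e ∈ T := (Finset.mem_filter.1 h).1
      simpa using hT e h1
  have hadj : ∀ x y, G.Adj x y ↔ x ∈ S ∧ y ∈ S ∧ s(x, y) ∈ T := by
    intro x y
    rw [hG, SimpleGraph.fromEdgeSet_adj]
    constructor
    · rintro ⟨h, hne⟩
      have h' := Finset.mem_filter.1 (Finset.mem_coe.1 h)
      exact ⟨h'.2 x (by simp), h'.2 y (by simp), h'.1⟩
    · rintro ⟨hx, hy, h⟩
      refine ⟨Finset.mem_coe.2 (Finset.mem_filter.2 ⟨h, ?_⟩), ?_⟩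
      · intro z hz
        rcases Sym2.mem_iff.1 hz with rfl | rfl
        · exact hx
        · exact hy
      · rintro rfl
        exact hT _ h (by simp)
  have h1 : ∑ v, G.degree v = 2 * (insd T S).card := by
    rw [G.sum_degrees_eq_twice_card_edges, hE]
  rw [← h1, ← Finset.sum_subset (Finset.subset_univ S)]
  · refine Finset.sum_congr rfl fun x hx => ?_
    rw [← SimpleGraph.card_neighborFinset_eq_degree]
    congr 1
    ext y
    rw [SimpleGraph.mem_neighborFinset, hadj, Finset.mem_filter]
    tauto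
  · intro x _ hx
    rw [← SimpleGraph.card_neighborFinset_eq_degree, Finset.card_eq_zero]
    ext y
    rw [SimpleGraph.mem_neighborFinset, hadj]
    simp [hx]

lemma arith_rank {s v t : ℕ} (hs : 1 ≤ s) (hv : 1 ≤ v) (h1 : 2 * t ≤ v * (v - 1))
    (h2 : 2 * t ≤ v * s) (h3 : v = s + 1 → 2 * t ≠ (s + 1) * s) :
    2 * (s + 1) * t ≤ ((s + 1) ^ 2 - 1) * (v - 1) := by
  obtain ⟨w, rfl⟩ : ∃ w, v = w + 1 := ⟨v - 1, by omega⟩
  have e1 : (s + 1) ^ 2 - 1 = s * (s + 2) := by
    have : (s + 1) ^ 2 = s * (s + 2) + 1 := by ring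
    omega
  rw [e1]
  simp only [Nat.add_sub_cancel] at h1 ⊢
  rcases lt_trichotomy w s with h | h | h
  · -- `v ≤ r - 1`
    have h4 : 2 * (s + 1) * t ≤ (s + 1) * ((w + 1) * w) := by nlinarith
    refine h4.trans ?_
    have h5 : w + 1 ≤ s := h
    calc (s + 1) * ((w + 1) * w) ≤ (s + 1) * (s * w) := by gcongr
      _ ≤ s * (s + 2) * w := by nlinarith [Nat.zero_le (s * w)]
  · subst h
    have h4 : 2 * t ≠ (w + 1) * w := h3 rfl
    have h5 : 2 ∣ (w + 1) * w := by
      rw [mul_comm]
      exact (Nat.even_mul_succ_self w).two_dvd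
    obtain ⟨m, hm⟩ := h5
    have h6 : t + 1 ≤ m := by omega
    have h7 : 2 * (t + 1) ≤ (w + 1) * w := by omega
    nlinarith
  · have h4 : 2 * (s + 1) * t ≤ (s + 1) * ((w + 1) * s) := by nlinarith
    refine h4.trans ?_
    have h5 : s + 1 ≤ w := h
    nlinarith

theorem rank_ge {n r : ℕ} (hr : 2 ≤ r) (H : SimpleGraph (Fin n)) (hH : ∀ v, H.degree v ≤ r - 1)
    {Th : Finset (Finset (Fin n))} (hTh : Th ⊆ cl H r) {Te : Finset (Sym2 (Fin n))}
    (hTe : Te ⊆ oth H r) :
    2 * r * Te.card + (r ^ 2 - 1) * (r - 1) * Th.card ≤ (r ^ 2 - 1) *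
      (n - Nat.card (SimpleGraph.fromEdgeSet
        ((Te ∪ shad Th : Finset (Sym2 (Fin n))) : Set (Sym2 (Fin n)))).ConnectedComponent) := by
  obtain ⟨s, rfl⟩ : ∃ s, r = s + 1 := ⟨r - 1, by omega⟩
  have hs : 1 ≤ s := by omega
  simp only [Nat.add_sub_cancel] at hH ⊢
  set F : SimpleGraph (Fin n) := SimpleGraph.fromEdgeSet
    ((Te ∪ shad Th : Finset (Sym2 (Fin n))) : Set (Sym2 (Fin n))) with hF
  -- edges of `Te`
  have hTeH : ∀ x y, s(x, y) ∈ Te → H.Adj x y := by
    intro x y h
    have h1 := (Finset.mem_filter.1 (hTe h)).1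
    have h2 := (Finset.mem_filter.1 h1).2
    exact h2
  have hTed : ∀ e ∈ Te, ¬ e.IsDiag := by
    intro e
    induction e using Sym2.ind with
    | _ x y =>
      intro h h'
      exact (hTeH x y h).ne (by simpa using h')
  have hTeo : ∀ e ∈ Te, ∀ c ∈ cl H (s + 1), e ∉ prs c := fun e he =>
    (Finset.mem_filter.1 (hTe he)).2
  -- cliques
  have hclc : ∀ c ∈ cl H (s + 1), c.card = s + 1 := fun c hc =>
    (Finset.mem_powersetCard.1 (Finset.mem_filter.1 hc).1).2
  have hcla : ∀ c ∈ cl H (s + 1), ∀ x ∈ c, ∀ y ∈ c, x ≠ y → H.Adj x y := fun c hc =>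
    (Finset.mem_filter.1 hc).2
  have hclosed : ∀ c ∈ cl H (s + 1), ∀ x ∈ c, ∀ y, H.Adj x y → y ∈ c := by
    intro c hc x hx y hxy
    have h1 : c.erase x ⊆ H.neighborFinset x := by
      intro z hz
      rw [SimpleGraph.mem_neighborFinset]
      exact hcla c hc x hx z (Finset.mem_of_mem_erase hz) (Finset.ne_of_mem_erase hz).symm
    have h2 : (c.erase x).card = s := by
      rw [Finset.card_erase_of_mem hx, hclc c hc]; rfl
    have h3 : c.erase x = H.neighborFinset x := by
      refine Finset.eq_of_subset_of_card_le h1 ?_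
      rw [h2, SimpleGraph.card_neighborFinset_eq_degree]
      exact hH x
    have h4 : y ∈ c.erase x := by
      rw [h3, SimpleGraph.mem_neighborFinset]; exact hxy
    exact Finset.mem_of_mem_erase h4
  -- adjacency in `F`
  have hFH : ∀ x y, F.Adj x y → H.Adj x y := by
    intro x y h
    rw [hF, SimpleGraph.fromEdgeSet_adj] at h
    obtain ⟨h, hne⟩ := h
    rw [Finset.mem_coe, Finset.mem_union] at h
    rcases h with h | h
    · exact hTeH x y h
    · obtain ⟨c, hc, h⟩ := Finset.mem_biUnion.1 h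
      obtain ⟨hx, hy, -⟩ := mem_prs.1 h
      exact hcla c (hTh hc) x hx y hy hne
  have hTeF : ∀ x y, s(x, y) ∈ Te → F.Adj x y := by
    intro x y h
    rw [hF, SimpleGraph.fromEdgeSet_adj]
    exact ⟨Finset.mem_coe.2 (Finset.mem_union_left _ h), (hTeH x y h).ne⟩
  have hThF : ∀ c ∈ Th, ∀ x ∈ c, ∀ y ∈ c, x ≠ y → F.Adj x y := by
    intro c hc x hx y hy hne
    rw [hF, SimpleGraph.fromEdgeSet_adj]
    exact ⟨Finset.mem_coe.2 (Finset.mem_union_right _
      (Finset.mem_biUnion.2 ⟨c, hc, mem_prs.2 ⟨hx, hy, hne⟩⟩)), hne⟩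
  -- components
  have : Fintype F.ConnectedComponent := Fintype.ofFinite _
  rw [Nat.card_eq_fintype_card]
  let sp : F.ConnectedComponent → Finset (Fin n) := fun K =>
    (univ : Finset (Fin n)).filter (fun x => F.connectedComponentMk x = K)
  have hsp : ∀ K x, x ∈ sp K ↔ F.connectedComponentMk x = K := fun K x => by simp [sp]
  have hpos : ∀ K, 1 ≤ (sp K).card := by
    intro K
    induction K using SimpleGraph.ConnectedComponent.ind with
    | _ x => exact Finset.card_pos.2 ⟨x, (hsp _ _).2 rfl⟩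
  have hsum : ∑ K, (sp K).card = n := by
    have := Finset.card_eq_sum_card_fiberwise (s := (univ : Finset (Fin n)))
      (t := (univ : Finset F.ConnectedComponent)) (f := F.connectedComponentMk)
      (fun x _ => Finset.mem_coe.2 (Finset.mem_univ _))
    rw [Finset.card_univ, Fintype.card_fin] at this
    exact this.symm
  have hsum' : ∑ K, ((sp K).card - 1) = n - Fintype.card F.ConnectedComponent := by
    have h1 : ∑ K, ((sp K).card - 1) + ∑ _K : F.ConnectedComponent, 1 = ∑ K, (sp K).card := by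
      rw [← Finset.sum_add_distrib]
      exact Finset.sum_congr rfl fun K _ => Nat.sub_add_cancel (hpos K)
    rw [hsum, Finset.sum_const, Finset.card_univ, smul_eq_mul, mul_one] at h1
    omega
  have hTes : Te.card ≤ ∑ K, (insd Te (sp K)).card := by
    refine le_trans (Finset.card_le_card ?_) Finset.card_biUnion_le
    intro e he
    induction e using Sym2.ind with
    | _ x y =>
      refine Finset.mem_biUnion.2 ⟨F.connectedComponentMk x, Finset.mem_univ _, ?_⟩
      refine Finset.mem_filter.2 ⟨he, fun z hz => ?_⟩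
      rcases Sym2.mem_iff.1 hz with rfl | rfl
      · exact (hsp _ _).2 rfl
      · exact (hsp _ _).2 (SimpleGraph.ConnectedComponent.sound (hTeF x z he).reachable.symm)
  have hThsub : ∀ c ∈ Th, ∃ x ∈ c, c ⊆ sp (F.connectedComponentMk x) := by
    intro c hc
    have hcc : 0 < c.card := by rw [hclc c (hTh hc)]; omega
    obtain ⟨x, hx⟩ := Finset.card_pos.1 hcc
    refine ⟨x, hx, fun y hy => ?_⟩
    rw [hsp]
    by_cases hxy : x = y
    · rw [hxy]
    · exact SimpleGraph.ConnectedComponent.sound (hThF c hc x hx y hy hxy).reachable.symm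
  have hThs : Th.card ≤ ∑ K, (Th.filter (fun c => c ⊆ sp K)).card := by
    refine le_trans (Finset.card_le_card ?_) Finset.card_biUnion_le
    intro c hc
    obtain ⟨x, -, hx⟩ := hThsub c hc
    exact Finset.mem_biUnion.2 ⟨F.connectedComponentMk x, Finset.mem_univ _,
      Finset.mem_filter.2 ⟨hc, hx⟩⟩
  -- the local inequality
  have hloc : ∀ K, 2 * (s + 1) * (insd Te (sp K)).card +
      ((s + 1) ^ 2 - 1) * s * (Th.filter (fun c => c ⊆ sp K)).card ≤
      ((s + 1) ^ 2 - 1) * ((sp K).card - 1) := by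
    intro K
    rcases Finset.eq_empty_or_nonempty (Th.filter (fun c => c ⊆ sp K)) with h0 | ⟨c, hc⟩
    · rw [h0, Finset.card_empty, mul_zero, add_zero]
      have h2 := two_mul_insd Te hTed (sp K)
      have hd1 : ∀ x ∈ sp K, ((sp K).filter (fun y => s(x, y) ∈ Te)).card ≤ (sp K).card - 1 := by
        intro x hx
        rw [← Finset.card_erase_of_mem hx]
        refine Finset.card_le_card fun y hy => ?_
        obtain ⟨hy1, hy2⟩ := Finset.mem_filter.1 hy
        exact Finset.mem_erase.2 ⟨(hTeH x y hy2).ne', hy1⟩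
      have hd2 : ∀ x ∈ sp K, ((sp K).filter (fun y => s(x, y) ∈ Te)).card ≤ s := by
        intro x hx
        refine le_trans (Finset.card_le_card ?_) (hH x)
        intro y hy
        rw [SimpleGraph.mem_neighborFinset]
        exact hTeH x y (Finset.mem_filter.1 hy).2
      refine arith_rank hs (hpos K) ?_ ?_ ?_
      · rw [h2]
        refine (Finset.sum_le_sum hd1).trans ?_
        rw [Finset.sum_const, smul_eq_mul]
      · rw [h2]
        refine (Finset.sum_le_sum hd2).trans ?_
        rw [Finset.sum_const, smul_eq_mul]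
      · intro hv heq
        rw [h2] at heq
        -- all degrees are `s`
        have hall : ∀ x ∈ sp K, ((sp K).filter (fun y => s(x, y) ∈ Te)).card = s := by
          have h3 : ∑ x ∈ sp K, ((sp K).filter (fun y => s(x, y) ∈ Te)).card =
              ∑ _x ∈ sp K, s := by
            rw [heq, Finset.sum_const, smul_eq_mul, hv]
          exact (Finset.sum_eq_sum_iff_of_le hd2).1 h3
        have hadj : ∀ x ∈ sp K, ∀ y ∈ sp K, x ≠ y → s(x, y) ∈ Te := by
          intro x hx y hy hne
          have h4 : (sp K).filter (fun y => s(x, y) ∈ Te) = (sp K).erase x := by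
            refine Finset.eq_of_subset_of_card_le ?_ ?_
            · intro z hz
              obtain ⟨hz1, hz2⟩ := Finset.mem_filter.1 hz
              exact Finset.mem_erase.2 ⟨(hTeH x z hz2).ne', hz1⟩
            · rw [hall x hx, Finset.card_erase_of_mem hx, hv]
              exact le_rfl
          have h5 : y ∈ (sp K).erase x := Finset.mem_erase.2 ⟨hne.symm, hy⟩
          rw [← h4] at h5
          exact (Finset.mem_filter.1 h5).2
        have hcl : sp K ∈ cl H (s + 1) := by
          refine Finset.mem_filter.2 ⟨Finset.mem_powersetCard.2 ⟨Finset.subset_univ _, hv⟩, ?_⟩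
          intro x hx y hy hne
          exact hTeH x y (hadj x hx y hy hne)
        have h1 : 1 < (sp K).card := by omega
        obtain ⟨x, hx, y, hy, hne⟩ := Finset.one_lt_card.1 h1
        exact hTeo _ (hadj x hx y hy hne) _ hcl (mem_prs.2 ⟨hx, hy, hne⟩)
    · obtain ⟨hc1, hc2⟩ := Finset.mem_filter.1 hc
      have hcc := hTh hc1
      -- the component is `c`
      have hKc : sp K = c := by
        refine Finset.Subset.antisymm ?_ hc2
        obtain ⟨x, hx⟩ : c.Nonempty := Finset.card_pos.1 (by rw [hclc c hcc]; omega)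
        intro y hy
        have hr' : F.Reachable x y := by
          have h1 := (hsp K x).1 (hc2 hx)
          have h2 := (hsp K y).1 hy
          exact SimpleGraph.ConnectedComponent.exact (h1.trans h2.symm)
        obtain ⟨p⟩ := hr'
        clear hy
        induction p with
        | nil => exact hx
        | cons h _ ih => exact ih (hclosed c hcc _ hx _ (hFH _ _ h))
      have hte : (insd Te (sp K)).card = 0 := by
        rw [Finset.card_eq_zero, Finset.eq_empty_iff_forall_notMem]
        intro e he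
        obtain ⟨he1, he2⟩ := Finset.mem_filter.1 he
        rw [hKc] at he2
        refine hTeo e he1 c hcc ?_
        induction e using Sym2.ind with
        | _ x y =>
          exact mem_prs.2 ⟨he2 x (by simp), he2 y (by simp), (hTeH x y he1).ne⟩
      have hth : (Th.filter (fun c => c ⊆ sp K)).card ≤ 1 := by
        rw [Finset.card_le_one]
        have h5 : ∀ a ∈ Th.filter (fun c => c ⊆ sp K), a = c := by
          intro a ha
          obtain ⟨ha1, ha2⟩ := Finset.mem_filter.1 ha
          rw [hKc] at ha2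
          exact Finset.eq_of_subset_of_card_le ha2 (by rw [hclc c hcc, hclc a (hTh ha1)])
        intro a ha b hb
        rw [h5 a ha, h5 b hb]
      rw [hte, mul_zero, zero_add, hKc, hclc c hcc, Nat.add_sub_cancel]
      rw [hKc] at hth
      calc ((s + 1) ^ 2 - 1) * s * (Th.filter (fun c' => c' ⊆ c)).card
          ≤ ((s + 1) ^ 2 - 1) * s * 1 := Nat.mul_le_mul_left _ hth
        _ = ((s + 1) ^ 2 - 1) * s := mul_one _
  calc 2 * (s + 1) * Te.card + ((s + 1) ^ 2 - 1) * s * Th.card
      ≤ 2 * (s + 1) * ∑ K, (insd Te (sp K)).card +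
        ((s + 1) ^ 2 - 1) * s * ∑ K, (Th.filter (fun c => c ⊆ sp K)).card := by gcongr
    _ = ∑ K, (2 * (s + 1) * (insd Te (sp K)).card +
        ((s + 1) ^ 2 - 1) * s * (Th.filter (fun c => c ⊆ sp K)).card) := by
        rw [Finset.mul_sum, Finset.mul_sum, ← Finset.sum_add_distrib]
    _ ≤ ∑ K, ((s + 1) ^ 2 - 1) * ((sp K).card - 1) := Finset.sum_le_sum fun K _ => hloc K
    _ = ((s + 1) ^ 2 - 1) * (n - Fintype.card F.ConnectedComponent) := by
        rw [← Finset.mul_sum, hsum']

end Pool.Agent.TH948.BD
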